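import Pool.Agent.Zk97.EA.Prob

/-!
# Edwards-Anderson ground states on `ℤ^d`: events of the order of the absolute values have the same
probability for all atomless laws
-/

set_option autoImplicit false
set_option linter.unusedSectionVars false
set_option linter.unusedSimpArgs false

open MeasureTheory Filter ProbabilityTheory Topology

namespace Pool.Agent.Zk97.EA

variable {d : ℕ}

/-- the distribution function of the absolute value -/
noncomputable def G (μ : Measure ℝ) (s : ℝ) : ℝ := μ.real {y | |y| ≤ s}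

section
variable (μ : Measure ℝ) [IsProbabilityMeasure μ]

theorem meas_abs_le (s : ℝ) : MeasurableSet {y : ℝ | |y| ≤ s} :=
  measurableSet_le (by fun_prop) measurable_const

theorem G_mono : Monotone (G μ) := by
  intro s t hst
  exact measureReal_mono (fun y hy => le_trans (show |y| ≤ s from hy) hst) (measure_ne_top _ _)

theorem G_le_one (s : ℝ) : G μ s ≤ 1 := measureReal_le_one

theorem G_nonneg (s : ℝ) : 0 ≤ G μ s := measureReal_nonneg

theorem G_eq_cdf : G μ = fun s => cdf (μ.map fun y => |y|) s := by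
  funext s
  have : IsProbabilityMeasure (μ.map fun y : ℝ => |y|) :=
    Measure.isProbabilityMeasure_map (by fun_prop)
  rw [cdf_eq_real, G, measureReal_def, measureReal_def,
    Measure.map_apply (by fun_prop) measurableSet_Iic]
  rfl

theorem G_continuous (hat : ∀ x, μ {x} = 0) : Continuous (G μ) := by
  have hp : IsProbabilityMeasure (μ.map fun y : ℝ => |y|) :=
    Measure.isProbabilityMeasure_map (by fun_prop)
  rw [G_eq_cdf, continuous_iff_continuousAt]
  intro s
  have h1 : (μ.map fun y : ℝ => |y|) {s} = 0 := by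
    rw [Measure.map_apply (by fun_prop) (measurableSet_singleton s)]
    refine measure_mono_null (t := {s, -s}) ?_ ?_
    · intro y hy
      have h2 : |y| = s := hy
      rcases abs_choice y with h3 | h3
      · left; rw [← h2, h3]
      · right
        show y = -s
        rw [← h2, h3, neg_neg]
    · have : ({s, -s} : Set ℝ) = {s} ∪ {-s} := by
        ext y
        simp [or_comm]
      rw [this]
      exact measure_union_null (hat s) (hat (-s))
  have h2 := StieltjesFunction.measure_singleton (cdf (μ.map fun y : ℝ => |y|)) s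
  rw [measure_cdf, h1] at h2
  have h3 : cdf (μ.map fun y : ℝ => |y|) s ≤
      Function.leftLim (cdf (μ.map fun y : ℝ => |y|)) s := by
    have := (ENNReal.ofReal_eq_zero).1 h2.symm
    linarith
  have hm : Monotone (cdf (μ.map fun y : ℝ => |y|)) := monotone_cdf _
  have h4 := hm.leftLim_le (le_refl s)
  rw [hm.continuousAt_iff_leftLim_eq_rightLim]
  rw [StieltjesFunction.rightLim_eq]
  exact le_antisymm h4 h3

theorem G_top : Tendsto (G μ) atTop (𝓝 1) := by
  have hp : IsProbabilityMeasure (μ.map fun y : ℝ => |y|) :=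
    Measure.isProbabilityMeasure_map (by fun_prop)
  rw [G_eq_cdf]
  exact tendsto_cdf_atTop _

theorem exists_level (hat : ∀ x, μ {x} = 0) {u : ℝ} (h0 : 0 < u) (h1 : u < 1) :
    ∃ s, G μ s = u := by
  have h2 : G μ (-1) ≤ u := by
    have : {y : ℝ | |y| ≤ -1} = ∅ := by
      ext y
      simp only [Set.mem_ofPred_eq, Set.mem_empty_iff_false, iff_false, not_le]
      linarith [abs_nonneg y]
    rw [G, this, measureReal_empty]
    exact h0.le
  obtain ⟨t, ht⟩ := ((G_top μ).eventually (lt_mem_nhds h1)).exists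
  exact mem_range_of_exists_le_of_exists_ge (G_continuous μ hat) ⟨-1, h2⟩ ⟨t, ht.le⟩

/-- the transform -/
noncomputable def g (x : ℝ) : ℝ := G μ |x|

theorem g_meas : Measurable (g μ) := (G_mono μ).measurable.comp (by fun_prop)

theorem g_meas_le (u : ℝ) : MeasurableSet {x | g μ x ≤ u} :=
  measurableSet_le (g_meas μ) measurable_const

theorem pit_ge (hat : ∀ x, μ {x} = 0) {u : ℝ} (h0 : 0 < u) (h1 : u < 1) :
    u ≤ μ.real {x | g μ x ≤ u} := by
  obtain ⟨s, hs⟩ := exists_level μ hat h0 h1
  have : {y : ℝ | |y| ≤ s} ⊆ {x | g μ x ≤ u} := by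
    intro y hy
    show G μ |y| ≤ u
    rw [← hs]
    exact G_mono μ hy
  calc u = G μ s := hs.symm
    _ ≤ _ := measureReal_mono this (measure_ne_top _ _)

theorem pit_le (hat : ∀ x, μ {x} = 0) {u v : ℝ} (h0 : 0 < v) (h1 : v < 1) (huv : u < v) :
    μ.real {x | g μ x ≤ u} ≤ v := by
  obtain ⟨s, hs⟩ := exists_level μ hat h0 h1
  have : {x | g μ x ≤ u} ⊆ {y : ℝ | |y| ≤ s} := by
    intro y hy
    have hy' : G μ |y| ≤ u := hy
    by_contra hc
    have h2 : s ≤ |y| := le_of_lt (not_le.1 hc)
    have h3 := G_mono μ h2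
    rw [hs] at h3
    linarith
  calc _ ≤ _ := measureReal_mono this (measure_ne_top _ _)
    _ = v := hs

theorem pit (hat : ∀ x, μ {x} = 0) (u : ℝ) :
    μ.real {x | g μ x ≤ u} = max 0 (min u 1) := by
  rcases le_or_gt u 0 with h0 | h0
  · rw [max_eq_left (le_trans (min_le_left _ _) h0)]
    refine le_antisymm ?_ measureReal_nonneg
    refine le_of_forall_pos_le_add fun ε hε => ?_
    rw [zero_add]
    have h1 := pit_le μ hat (u := u) (v := min ε (1 / 2)) (by positivity)
      ((min_le_right _ _).trans_lt (by norm_num)) (h0.trans_lt (by positivity))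
    exact h1.trans (min_le_left _ _)
  rcases le_or_gt 1 u with h1 | h1
  · rw [min_eq_right h1, max_eq_right zero_le_one]
    have : {x | g μ x ≤ u} = Set.univ := by
      ext x
      simp only [Set.mem_ofPred_eq, Set.mem_univ, iff_true]
      exact (G_le_one μ _).trans h1
    rw [this]
    exact probReal_univ
  · rw [min_eq_left h1.le, max_eq_right h0.le]
    refine le_antisymm ?_ (pit_ge μ hat h0 h1)
    refine le_of_forall_pos_le_add fun ε hε => ?_
    have h2 := pit_le μ hat (u := u) (v := min (u + ε) ((u + 1) / 2))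
      (lt_min (by linarith) (by linarith)) ((min_le_right _ _).trans_lt (by linarith))
      (lt_min (by linarith) (by linarith))
    exact h2.trans (min_le_left _ _)

end

/-- the law of the transform does not depend on the law -/
theorem law_g (μ μ' : Measure ℝ) [IsProbabilityMeasure μ] [IsProbabilityMeasure μ']
    (hat : ∀ x, μ {x} = 0) (hat' : ∀ x, μ' {x} = 0) : μ.map (g μ) = μ'.map (g μ') := by
  have h1 : IsProbabilityMeasure (μ.map (g μ)) :=
    Measure.isProbabilityMeasure_map (g_meas μ).aemeasurable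
  refine Measure.ext_of_Iic _ _ fun u => ?_
  rw [Measure.map_apply (g_meas μ) measurableSet_Iic, Measure.map_apply (g_meas μ') measurableSet_Iic]
  have h2 := pit μ hat u
  have h3 := pit μ' hat' u
  rw [← h3, measureReal_def, measureReal_def] at h2
  exact (ENNReal.toReal_eq_toReal_iff' (measure_ne_top _ _) (measure_ne_top _ _)).1 h2

theorem g_atomless (μ : Measure ℝ) [IsProbabilityMeasure μ] (hat : ∀ x, μ {x} = 0) (u : ℝ) :
    (μ.map (g μ)) {u} = 0 := by
  rw [Measure.map_apply (g_meas μ) (measurableSet_singleton u)]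
  have h0 : μ.real ((g μ) ⁻¹' {u}) ≤ 0 := by
    refine le_of_forall_pos_le_add fun ε hε => ?_
    rw [zero_add]
    have h1 : (g μ) ⁻¹' {u} ⊆ {x | g μ x ≤ u} \ {x | g μ x ≤ u - ε} := by
      intro x hx
      have hx' : g μ x = u := hx
      refine ⟨hx'.le, ?_⟩
      show ¬ g μ x ≤ u - ε
      rw [hx']
      linarith
    have h2 : {x | g μ x ≤ u - ε} ⊆ {x | g μ x ≤ u} := by
      intro x hx
      have hx' : g μ x ≤ u - ε := hx
      show g μ x ≤ u
      linarith
    refine (measureReal_mono h1 (measure_ne_top _ _)).trans ?_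
    rw [measureReal_sdiff h2 (g_meas_le μ _), pit μ hat, pit μ hat]
    rcases le_total u 1 with h3 | h3 <;> rcases le_total (u - ε) 1 with h4 | h4 <;>
      rcases le_total 0 u with h5 | h5 <;> rcases le_total 0 (u - ε) with h6 | h6 <;>
      simp [min_eq_left, min_eq_right, max_eq_left, max_eq_right, h3, h4, h5, h6] <;> linarith
  have h1 : μ.real ((g μ) ⁻¹' {u}) = 0 := le_antisymm h0 measureReal_nonneg
  rw [measureReal_def, ENNReal.toReal_eq_zero_iff] at h1
  rcases h1 with h | h
  · exact h
  · exact absurd h (measure_ne_top _ _)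

/-- two transformed couplings are almost surely different -/
theorem g_ne (μ : Measure ℝ) [IsProbabilityMeasure μ] (hat : ∀ x, μ {x} = 0) {e f : Bond d}
    (hef : e ≠ f) : ∀ᵐ J ∂(PJ d μ), g μ (J e) ≠ g μ (J f) := by
  have hp : IsProbabilityMeasure (μ.map (g μ)) :=
    Measure.isProbabilityMeasure_map (g_meas μ).aemeasurable
  have hD : MeasurableSet {p : ℝ × ℝ | g μ p.1 = g μ p.2} :=
    measurableSet_eq_fun ((g_meas μ).comp measurable_fst) ((g_meas μ).comp measurable_snd)
  have h1 : (μ.prod μ) {p : ℝ × ℝ | g μ p.1 = g μ p.2} = 0 := by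
    rw [Measure.measure_prod_null hD]
    refine Eventually.of_forall fun x => ?_
    have h2 : Prod.mk x ⁻¹' {p : ℝ × ℝ | g μ p.1 = g μ p.2} = (g μ) ⁻¹' {g μ x} := by
      ext y
      exact eq_comm
    show μ (Prod.mk x ⁻¹' {p : ℝ × ℝ | g μ p.1 = g μ p.2}) = 0
    rw [h2, ← Measure.map_apply (g_meas μ) (measurableSet_singleton _)]
    exact g_atomless μ hat _
  rw [← map_pair μ hef, Measure.map_apply (by fun_prop) hD] at h1
  rw [ae_iff]
  simpa using h1

/-- a set of configurations which depends only on the order -/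
def OrdInv (S : Set (Bond d → ℝ)) : Prop :=
  ∀ U V : Bond d → ℝ, (∀ e f, U e < U f ↔ V e < V f) → U ∈ S → V ∈ S

theorem df_aux (μ : Measure ℝ) [IsProbabilityMeasure μ] (hat : ∀ x, μ {x} = 0)
    (S : Set (Bond d → ℝ)) (hS : MeasurableSet S) (hO : OrdInv S) :
    (PJ d μ).real {J | (fun e => |J e|) ∈ S} =
      (Measure.infinitePi fun _ : Bond d => μ.map (g μ)).real S := by
  have h1 : ∀ᵐ J ∂(PJ d μ), ∀ p : Bond d × Bond d, p.1 ≠ p.2 → g μ (J p.1) ≠ g μ (J p.2) := by
    rw [ae_all_iff]
    intro p
    by_cases hp : p.1 = p.2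
    · exact Eventually.of_forall fun J h => absurd hp h
    · filter_upwards [g_ne μ hat hp] with J hJ _
      exact hJ
  have h2 : {J : Bond d → ℝ | (fun e => |J e|) ∈ S} =ᵐ[PJ d μ]
      {J : Bond d → ℝ | (fun e => g μ (J e)) ∈ S} := by
    filter_upwards [h1] with J hJ
    have h3 : ∀ e f, |J e| < |J f| ↔ g μ (J e) < g μ (J f) := by
      intro e f
      constructor
      · intro h
        have h4 : g μ (J e) ≤ g μ (J f) := G_mono μ h.le
        have hne : e ≠ f := by
          rintro rfl
          exact lt_irrefl _ h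
        exact lt_of_le_of_ne h4 (hJ (e, f) hne)
      · intro h
        by_contra hc
        have h4 : g μ (J f) ≤ g μ (J e) := G_mono μ (not_lt.1 hc)
        linarith
    apply propext
    exact ⟨hO _ _ h3, hO _ _ fun e f => (h3 e f).symm⟩
  rw [measureReal_congr h2]
  have h4 := Measure.infinitePi_map_pi (μ := fun _ : Bond d => μ) (f := fun _ => g μ)
    (fun _ => g_meas μ)
  rw [measureReal_def, measureReal_def, ← h4, Measure.map_apply (by
    exact measurable_pi_lambda _ fun e => (g_meas μ).comp (measurable_pi_apply e)) hS]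
  rfl

/-- events of the order have the same probability for all atomless laws -/
theorem df (μ μ' : Measure ℝ) [IsProbabilityMeasure μ] [IsProbabilityMeasure μ']
    (hat : ∀ x, μ {x} = 0) (hat' : ∀ x, μ' {x} = 0)
    (S : Set (Bond d → ℝ)) (hS : MeasurableSet S) (hO : OrdInv S) :
    (PJ d μ).real {J | (fun e => |J e|) ∈ S} = (PJ d μ').real {J | (fun e => |J e|) ∈ S} := by
  rw [df_aux μ hat S hS hO, df_aux μ' hat' S hS hO, law_g μ μ' hat hat']

theorem far_ord (Z : Finset (Site d)) (M : ℕ) : OrdInv (Far Z M) := by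
  intro U V h hU
  have h1 : ordr U = ordr V := by
    funext e f
    exact propext (h e f)
  unfold Far FarJoined FarStrong at hU ⊢
  simp only [Set.mem_union, Set.mem_iUnion, Set.mem_ofPred_eq] at hU ⊢
  rw [← h1]
  exact hU

end Pool.Agent.Zk97.EA
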