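import Mathlib

/-!
# Edwards-Anderson ground states on `ℤ^d`: strongest bonds of finite cuts (deterministic part)
-/

set_option autoImplicit false

namespace Pool.Agent.Zk97.EA

variable {d : ℕ}

/-- sites of `ℤ^d` -/
abbrev Site (d : ℕ) : Type := Fin d → ℤ

/-- the bond `(v, i)` joins `v` and `v + e_i` -/
abbrev Bond (d : ℕ) : Type := (Fin d → ℤ) × Fin d

/-- the upper end of a bond -/
def tip (e : Bond d) : Site d := e.1 + (Pi.single e.2 (1 : ℤ) : Fin d → ℤ)

/-- ground states in `W` -/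
def IsGS (W : Set (Site d)) (J : Bond d → ℝ) (σ : Site d → ℝ) : Prop :=
  (∀ x, σ x = 1 ∨ σ x = -1) ∧
  ∀ ρ : Site d → ℝ, (∀ x, ρ x = 1 ∨ ρ x = -1) → {x | ρ x ≠ σ x}.Finite →
    {x | ρ x ≠ σ x} ⊆ W → ρ ≠ σ →
    0 < ∑ᶠ e : Bond d, J e * (σ e.1 * σ (e.1 + (Pi.single e.2 (1 : ℤ) : Fin d → ℤ))
      - ρ e.1 * ρ (e.1 + (Pi.single e.2 (1 : ℤ) : Fin d → ℤ)))

/-- the boundary of a finite set of sites -/
def cut (A : Finset (Site d)) : Set (Bond d) :=
  {e | (e.1 ∈ A ∧ tip e ∉ A) ∨ (e.1 ∉ A ∧ tip e ∈ A)}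

theorem tip_inj (i : Fin d) : Function.Injective fun v : Site d => tip (v, i) := by
  intro u v h
  simpa [tip] using h

theorem cut_finite (A : Finset (Site d)) : (cut A).Finite := by
  classical
  have h1 : cut A ⊆ ((A : Set (Site d)) ×ˢ Set.univ) ∪
      ((fun p : Site d × Fin d => ((p.1 - Pi.single p.2 1, p.2) : Bond d)) ''
        ((A : Set (Site d)) ×ˢ Set.univ)) := by
    rintro ⟨v, i⟩ he
    rcases he with ⟨h1, -⟩ | ⟨-, h2⟩
    · left
      exact ⟨h1, trivial⟩
    · right
      refine ⟨(tip (v, i), i), ⟨h2, trivial⟩, ?_⟩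
      simp [tip]
  exact ((A.finite_toSet.prod Set.finite_univ).union
    ((A.finite_toSet.prod Set.finite_univ).image _)).subset h1

/-- every finite subset of `W` has positive boundary energy -/
def GSC (W : Set (Site d)) (J : Bond d → ℝ) (σ : Site d → ℝ) : Prop :=
  (∀ v, σ v = 1 ∨ σ v = -1) ∧
  ∀ A : Finset (Site d), A.Nonempty → (∀ v ∈ A, v ∈ W) →
    0 < ∑ᶠ e ∈ cut A, J e * (σ e.1 * σ (tip e))

theorem gsc_of (W : Set (Site d)) (J : Bond d → ℝ) (σ : Site d → ℝ) (h : IsGS W J σ) :
    GSC W J σ := by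
  classical
  refine ⟨fun v => h.1 _, fun A hA hAW => ?_⟩
  set ρ : Site d → ℝ := fun x => if x ∈ A then -σ x else σ x with hρ
  have hσ0 : ∀ x, σ x ≠ 0 := fun x => by rcases h.1 x with h1 | h1 <;> rw [h1] <;> norm_num
  have h1 : ∀ x, ρ x = 1 ∨ ρ x = -1 := by
    intro x
    simp only [hρ]
    split_ifs
    · rcases h.1 x with h1 | h1 <;> rw [h1] <;> simp
    · exact h.1 x
  have h2' : ∀ x, ρ x ≠ σ x → x ∈ A := by
    intro x hx
    by_contra hc
    apply hx
    simp only [hρ]
    rw [if_neg (by simpa using hc)]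
  have h2 : {x | ρ x ≠ σ x}.Finite := A.finite_toSet.subset fun x hx => h2' x hx
  have h3 : ρ ≠ σ := by
    obtain ⟨v, hv⟩ := hA
    intro hc
    have h4 := congrFun hc v
    simp only [hρ] at h4
    rw [if_pos hv] at h4
    have := hσ0 v
    apply this
    linarith
  have h4 := h.2 ρ h1 h2 (fun x hx => hAW x (h2' x hx)) h3
  have h6 : ∀ e : Bond d, J e * (σ e.1 * σ (e.1 + (Pi.single e.2 (1 : ℤ) : Fin d → ℤ)) -
      ρ e.1 * ρ (e.1 + (Pi.single e.2 (1 : ℤ) : Fin d → ℤ))) =
      if e ∈ cut A then 2 * (J e * (σ e.1 * σ (tip e))) else 0 := by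
    intro e
    show J e * (σ e.1 * σ (tip e) - ρ e.1 * ρ (tip e)) = _
    simp only [hρ]
    unfold cut
    simp only [Set.mem_ofPred_eq]
    by_cases c1 : e.1 ∈ A <;> by_cases c2 : tip e ∈ A <;> simp [c1, c2] <;> ring
  rw [finsum_congr h6] at h4
  have h7 : ∑ᶠ e : Bond d, (if e ∈ cut A then 2 * (J e * (σ e.1 * σ (tip e))) else 0) =
      2 * ∑ᶠ e ∈ cut A, J e * (σ e.1 * σ (tip e)) := by
    rw [finsum_mem_eq_finite_toFinset_sum _ (cut_finite A), Finset.mul_sum,
      finsum_eq_sum_of_support_subset (s := (cut_finite A).toFinset)]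
    · refine Finset.sum_congr rfl fun e he => ?_
      rw [if_pos ((cut_finite A).mem_toFinset.1 he)]
    · intro e he
      rw [Function.mem_support] at he
      rw [Finset.mem_coe, Set.Finite.mem_toFinset]
      by_contra hc
      exact he (if_neg hc)
  rw [h7] at h4
  linarith

/-- the box of radius `M` -/
def Bx (M : ℕ) : Set (Site d) := {v | ∀ i, |v i| ≤ M}

/-- the bonds with lower end in the box of radius `M + 1` -/
noncomputable def BE (d M : ℕ) : Finset (Bond d) :=
  (Fintype.piFinset fun _ : Fin d => Finset.Icc (-((M : ℤ) + 1)) (M + 1)) ×ˢ Finset.univ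

theorem mem_BE {M : ℕ} {e : Bond d} : e ∈ BE d M ↔ ∀ i, |e.1 i| ≤ M + 1 := by
  unfold BE
  simp only [Finset.mem_product, Fintype.mem_piFinset, Finset.mem_Icc, Finset.mem_univ, and_true,
    abs_le]

theorem cut_BE {M : ℕ} {A : Finset (Site d)} (hA : ∀ v ∈ A, v ∈ Bx (d := d) M) {f : Bond d}
    (hf : f ∈ cut A) : f ∈ BE d M := by
  rw [mem_BE]
  intro i
  rcases hf with h | h
  · have := hA _ h.1 i
    linarith
  · have h1 := hA _ h.2 i
    unfold tip at h1
    rw [Pi.add_apply] at h1
    have h2 : |(Pi.single f.2 (1 : ℤ) : Fin d → ℤ) i| ≤ 1 := by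
      rcases eq_or_ne i f.2 with h3 | h3
      · rw [h3]; simp
      · rw [Pi.single_eq_of_ne h3]; simp
    calc |f.1 i| = |(f.1 i + (Pi.single f.2 (1 : ℤ) : Fin d → ℤ) i) -
          (Pi.single f.2 (1 : ℤ) : Fin d → ℤ) i| := by ring_nf
      _ ≤ _ := abs_sub _ _
      _ ≤ _ := by linarith

/-- `e` is the strongest bond of the boundary of a finite set, for a relation `r` (being weaker) -/
def Strong (r : Bond d → Bond d → Prop) (e : Bond d) : Prop :=
  ∃ A : Finset (Site d), e ∈ cut A ∧ ∀ f ∈ cut A, f ≠ e → r f e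

/-- the same with sets in the box of radius `M` -/
def StrongL (r : Bond d → Bond d → Prop) (M : ℕ) (e : Bond d) : Prop :=
  ∃ A : Finset (Site d), (∀ v ∈ A, v ∈ Bx (d := d) M) ∧ e ∈ cut A ∧ ∀ f ∈ cut A, f ≠ e → r f e

theorem StrongL.mono {r : Bond d → Bond d → Prop} {M M' : ℕ} (h : M ≤ M') {e : Bond d}
    (he : StrongL r M e) : StrongL r M' e := by
  obtain ⟨A, hA, h1⟩ := he
  exact ⟨A, fun v hv i => (hA v hv i).trans (by exact_mod_cast h), h1⟩

theorem strong_iff {r : Bond d → Bond d → Prop} {e : Bond d} :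
    Strong r e ↔ ∃ M, StrongL r M e := by
  constructor
  · rintro ⟨A, h⟩
    refine ⟨∑ v ∈ A, ∑ i, (v i).natAbs, A, ?_, h⟩
    intro v hv i
    have h1 : (v i).natAbs ≤ ∑ i, (v i).natAbs :=
      Finset.single_le_sum (f := fun i => (v i).natAbs) (fun _ _ => Nat.zero_le _)
        (Finset.mem_univ i)
    have h2 : ∑ i, (v i).natAbs ≤ ∑ v ∈ A, ∑ i, (v i).natAbs :=
      Finset.single_le_sum (f := fun v : Site d => ∑ i, (v i).natAbs) (fun _ _ => Nat.zero_le _) hv
    rw [Int.abs_eq_natAbs]
    exact_mod_cast h1.trans h2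
  · rintro ⟨M, A, -, h⟩
    exact ⟨A, h⟩

/-- joined by a bond of `S` -/
def Adj (S : Set (Bond d)) (x y : Site d) : Prop :=
  ∃ e ∈ S, (e.1 = x ∧ tip e = y) ∨ (e.1 = y ∧ tip e = x)

/-- joined by a path of bonds of `S` -/
def Reach (S : Set (Bond d)) (x y : Site d) : Prop := Relation.ReflTransGen (Adj S) x y

theorem Reach.mono {S T : Set (Bond d)} (h : S ⊆ T) {x y : Site d} (hr : Reach S x y) :
    Reach T x y := by
  unfold Reach at hr ⊢
  induction hr with
  | refl => exact Relation.ReflTransGen.refl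
  | @tail b c _ hbc ih =>
    obtain ⟨e, he, h'⟩ := hbc
    exact Relation.ReflTransGen.tail ih ⟨e, h he, h'⟩

theorem reach_iff {r : Bond d → Bond d → Prop} {x y : Site d} :
    Reach {e | Strong r e} x y ↔ ∃ M, Reach {e | StrongL r M e} x y := by
  constructor
  · intro h
    unfold Reach at h
    induction h with
    | refl => exact ⟨0, Relation.ReflTransGen.refl⟩
    | @tail b c _ hbc ih =>
      obtain ⟨M, hM⟩ := ih
      obtain ⟨e, he, h'⟩ := hbc
      obtain ⟨M', hM'⟩ := strong_iff.1 he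
      refine ⟨max M M', Relation.ReflTransGen.tail (Reach.mono ?_ hM) ⟨e, ?_, h'⟩⟩
      · exact fun f hf => StrongL.mono (le_max_left _ _) hf
      · exact StrongL.mono (le_max_right _ _) hM'
  · rintro ⟨M, hM⟩
    exact Reach.mono (fun f hf => strong_iff.2 ⟨M, hf⟩) hM

/-- the absolute values of the couplings in a box are separated by the factor `K` -/
def Sep (J : Bond d → ℝ) (K : ℝ) (M : ℕ) : Prop :=
  ∀ e ∈ BE d M, ∀ f ∈ BE d M, e ≠ f → K * |J e| < |J f| ∨ K * |J f| < |J e|

/-- the order of the absolute values -/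
def ordr (w : Bond d → ℝ) (f e : Bond d) : Prop := w f < w e

/-- A strongest bond of a finite cut is satisfied in a ground state. -/
theorem sat_edge {W : Set (Site d)} {J : Bond d → ℝ} {K : ℝ} {M : ℕ}
    (hW : ∀ v, v ∈ Bx (d := d) M → v ∈ W) (hK : ((BE d M).card : ℝ) ≤ K)
    (hS : Sep J K M) {σ : Site d → ℝ} (hσ : GSC W J σ) {e : Bond d}
    (he : StrongL (ordr fun e => |J e|) M e) :
    J e * (σ e.1 * σ (tip e)) = |J e| ∧ 0 < |J e| := by
  classical
  obtain ⟨A, hA, heA, hmax⟩ := he
  have hne : A.Nonempty := by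
    rcases heA with h | h
    · exact ⟨_, h.1⟩
    · exact ⟨_, h.2⟩
  have hfin : (cut A).Finite := cut_finite A
  have hpos := hσ.2 A hne fun v hv => hW v (hA v hv)
  set w : Bond d → ℝ := fun f => J f * (σ f.1 * σ (tip f)) with hw
  have hspin : ∀ v w' : Site d, σ v * σ w' = 1 ∨ σ v * σ w' = -1 := by
    intro v w'
    rcases hσ.1 v with h | h <;> rcases hσ.1 w' with h' | h' <;> rw [h, h'] <;> norm_num
  have hwabs : ∀ f, |w f| = |J f| := by
    intro f
    rw [hw]
    simp only
    rcases hspin f.1 (tip f) with h | h <;> rw [h] <;> simp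
  rw [finsum_mem_eq_finite_toFinset_sum _ hfin] at hpos
  set S := hfin.toFinset with hSdef
  have heS : e ∈ S := by rw [hSdef, Set.Finite.mem_toFinset]; exact heA
  have hSbox : S ⊆ BE d M := by
    intro f hf
    rw [hSdef, Set.Finite.mem_toFinset] at hf
    exact cut_BE hA hf
  have hebox := hSbox heS
  rw [← Finset.add_sum_erase S w heS] at hpos
  have hcard1 : 1 ≤ (BE d M).card := Finset.card_pos.2 ⟨e, hebox⟩
  have hK1 : (1 : ℝ) ≤ K := le_trans (by exact_mod_cast hcard1) hK
  have hlt : ∀ f ∈ S.erase e, K * |J f| < |J e| := by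
    intro f hf
    rw [Finset.mem_erase] at hf
    have h1 : |J f| < |J e| := by
      have := hf.2
      rw [hSdef, Set.Finite.mem_toFinset] at this
      exact hmax f this hf.1
    rcases hS f (hSbox hf.2) e hebox hf.1 with h | h
    · exact h
    · exfalso
      have : |J e| ≤ K * |J e| := by nlinarith [abs_nonneg (J e)]
      linarith
  have hsum : |∑ f ∈ S.erase e, w f| ≤ ∑ f ∈ S.erase e, |J f| := by
    refine (Finset.abs_sum_le_sum_abs _ _).trans (le_of_eq ?_)
    exact Finset.sum_congr rfl fun f _ => hwabs f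
  have hepos : 0 < |J e| := by
    rcases (abs_nonneg (J e)).lt_or_eq with h | h
    · exact h
    · exfalso
      have hemp : S.erase e = ∅ := by
        rw [Finset.eq_empty_iff_forall_notMem]
        intro f hf
        have h1 := hlt f hf
        have h2 : 0 ≤ K * |J f| := by positivity
        linarith
      rw [hemp, Finset.sum_empty, add_zero] at hpos
      have h1 := hwabs e
      rw [← h] at h1
      have h2 : w e = 0 := abs_eq_zero.1 h1
      linarith
  have hsmall : ∑ f ∈ S.erase e, |J f| < |J e| := by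
    have h1 : K * ∑ f ∈ S.erase e, |J f| ≤ ((S.erase e).card : ℝ) * |J e| := by
      rw [Finset.mul_sum, ← nsmul_eq_mul, ← Finset.sum_const]
      exact Finset.sum_le_sum fun f hf => (hlt f hf).le
    have h2 : ((S.erase e).card : ℝ) + 1 ≤ K := by
      have h3 : (S.erase e).card + 1 = S.card := Finset.card_erase_add_one heS
      have h4 : S.card ≤ (BE d M).card := Finset.card_le_card hSbox
      have h5 : ((S.erase e).card : ℝ) + 1 ≤ ((BE d M).card : ℝ) := by
        exact_mod_cast h3.trans_le h4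
      linarith
    by_contra hcon
    rw [not_lt] at hcon
    nlinarith
  refine ⟨?_, hepos⟩
  have h6 := (abs_le.1 (le_refl |∑ f ∈ S.erase e, w f|)).2
  rcases hspin e.1 (tip e) with h | h
  · have h7 : w e = J e := by rw [hw]; simp only; rw [h, mul_one]
    have h8 : 0 < J e := by
      by_contra hcon
      rw [not_lt] at hcon
      rw [abs_of_nonpos hcon] at hsmall
      rw [h7] at hpos
      linarith
    show w e = |J e|
    rw [h7, abs_of_pos h8]
  · have h7 : w e = - J e := by rw [hw]; simp only; rw [h]; ring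
    have h8 : J e < 0 := by
      by_contra hcon
      rw [not_lt] at hcon
      rw [abs_of_nonneg hcon] at hsmall
      rw [h7] at hpos
      linarith
    show w e = |J e|
    rw [h7, abs_of_neg h8]

/-- two ground states agree along paths of strongest bonds -/
theorem agree {W W' : Set (Site d)} {J : Bond d → ℝ} {K : ℝ} {M : ℕ}
    (hW : ∀ v, v ∈ Bx (d := d) M → v ∈ W) (hW' : ∀ v, v ∈ Bx (d := d) M → v ∈ W')
    (hK : ((BE d M).card : ℝ) ≤ K)
    (hS : Sep J K M) {σ τ : Site d → ℝ} (hσ : GSC W J σ) (hτ : GSC W' J τ) {u v : Site d}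
    (hr : Reach {e | StrongL (ordr fun e => |J e|) M e} u v) : σ u * σ v = τ u * τ v := by
  have hsq : ∀ (W : Set (Site d)) (ρ : Site d → ℝ), GSC W J ρ → ∀ v, ρ v * ρ v = 1 := by
    intro W ρ hρ v
    rcases hρ.1 v with h | h <;> rw [h] <;> norm_num
  have hedge : ∀ e, StrongL (ordr fun e => |J e|) M e →
      σ e.1 * σ (tip e) = τ e.1 * τ (tip e) := by
    intro e he
    obtain ⟨h1, h2⟩ := sat_edge hW hK hS hσ he
    obtain ⟨h3, -⟩ := sat_edge hW' hK hS hτ he
    have hJ : J e ≠ 0 := abs_pos.1 h2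
    exact mul_left_cancel₀ hJ (h1.trans h3.symm)
  have hstep : ∀ x y, Adj {e | StrongL (ordr fun e => |J e|) M e} x y →
      σ x * σ y = τ x * τ y := by
    rintro x y ⟨e, he, h | h⟩
    · rw [← h.1, ← h.2]; exact hedge e he
    · rw [← h.1, ← h.2, mul_comm (σ _), mul_comm (τ _)]; exact hedge e he
  unfold Reach at hr
  induction hr with
  | refl => rw [hsq W σ hσ, hsq W' τ hτ]
  | @tail b c _ hbc ih =>
    have h1 := hstep b c hbc
    calc σ u * σ c = (σ u * σ b) * (σ b * σ c) := by
          have := hsq W σ hσ b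
          linear_combination (- σ u * σ c) * this
      _ = (τ u * τ b) * (τ b * τ c) := by rw [ih, h1]
      _ = τ u * τ c := by
          have := hsq W' τ hτ b
          linear_combination (τ u * τ c) * this

/-- translation of bonds -/
def te (v : Site d) : Bond d ≃ Bond d where
  toFun e := (e.1 + v, e.2)
  invFun e := (e.1 - v, e.2)
  left_inv e := by simp
  right_inv e := by simp

theorem te_fst (v : Site d) (e : Bond d) : (te v e).1 = e.1 + v := rfl

theorem te_tip (v : Site d) (e : Bond d) : tip (te v e) = tip e + v := by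
  show e.1 + v + _ = e.1 + _ + v
  exact add_right_comm _ _ _

theorem te_cut (v : Site d) (A : Finset (Site d)) (e : Bond d) :
    te v e ∈ cut (A.map (Equiv.addRight v).toEmbedding) ↔ e ∈ cut A := by
  have hmem : ∀ w : Site d, w + v ∈ A.map (Equiv.addRight v).toEmbedding ↔ w ∈ A := by
    intro w
    rw [Finset.mem_map]
    constructor
    · rintro ⟨a, ha, h⟩
      have : a = w := by simpa using h
      rwa [← this]
    · intro hw
      exact ⟨w, hw, rfl⟩
  unfold cut
  simp only [Set.mem_ofPred_eq, te_fst, te_tip, hmem]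

/-- translation of the couplings -/
def sh (v : Site d) (J : Bond d → ℝ) : Bond d → ℝ := fun e => J (te v e)

theorem gsc_sh {W : Set (Site d)} {J : Bond d → ℝ} {σ : Site d → ℝ} (h : GSC W J σ) (v : Site d) :
    GSC {w | w + v ∈ W} (sh v J) (fun w => σ (w + v)) := by
  classical
  refine ⟨fun w => h.1 _, fun A hA hAW => ?_⟩
  have h2 := h.2 (A.map (Equiv.addRight v).toEmbedding) (by simpa using hA) (by
    intro u hu
    rw [Finset.mem_map] at hu
    obtain ⟨a, ha, rfl⟩ := hu
    exact hAW a ha)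
  refine lt_of_lt_of_le h2 (le_of_eq ?_)
  symm
  refine (finsum_mem_eq_of_bijOn (te v) ⟨?_, (te v).injective.injOn, ?_⟩ ?_)
  · intro e he
    exact (te_cut v A e).2 he
  · intro e he
    refine ⟨(te v).symm e, ?_, by simp⟩
    rw [← (te v).apply_symm_apply e] at he
    exact (te_cut v A _).1 he
  · intro e _
    show J _ * (σ (e.1 + v) * σ (tip e + v)) = J (te v e) * (σ (te v e).1 * σ (tip (te v e)))
    rw [te_fst, te_tip]

theorem strong_sh {w : Bond d → ℝ} {v : Site d} {e : Bond d} (h : Strong (ordr w) (te v e)) :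
    Strong (ordr (sh v w)) e := by
  classical
  obtain ⟨A, h1, h2⟩ := h
  refine ⟨A.map (Equiv.addRight (-v)).toEmbedding, ?_, ?_⟩
  · have := (te_cut (-v) A (te v e)).2 h1
    have e1 : te (-v) (te v e) = e := by
      refine Prod.ext ?_ rfl
      simp [te_fst]
    rwa [e1] at this
  · intro f hf hfe
    have e1 : te (-v) (te v f) = f := by
      refine Prod.ext ?_ rfl
      simp [te_fst]
    rw [← e1] at hf
    have h3 := (te_cut (-v) A (te v f)).1 hf
    exact h2 _ h3 fun hc => hfe ((te v).injective hc)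

theorem reach_sh {w : Bond d → ℝ} {v x y : Site d}
    (h : Reach {e | Strong (ordr w) e} x y) :
    Reach {e | Strong (ordr (sh v w)) e} (x - v) (y - v) := by
  unfold Reach at h
  induction h with
  | refl => exact Relation.ReflTransGen.refl
  | @tail b c _ hbc ih =>
    refine Relation.ReflTransGen.tail ih ?_
    obtain ⟨e, he, h'⟩ := hbc
    refine ⟨(te v).symm e, strong_sh (by rw [(te v).apply_symm_apply]; exact he), ?_⟩
    have h1 : ((te v).symm e).1 = e.1 - v := rfl
    have h2 : tip ((te v).symm e) = tip e - v := by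
      have := te_tip v ((te v).symm e)
      rw [(te v).apply_symm_apply] at this
      rw [this, add_sub_cancel_right]
    rw [h1, h2]
    rcases h' with ⟨h3, h4⟩ | ⟨h3, h4⟩
    · left; rw [h3, h4]; exact ⟨rfl, rfl⟩
    · right; rw [h3, h4]; exact ⟨rfl, rfl⟩

end Pool.Agent.Zk97.EA
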