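import Pool.Agent.Zk97.EA.DF

/-!
# Edwards-Anderson ground states on `ℤ^d` follow the minimal spanning forest: assembly
-/

set_option autoImplicit false

open MeasureTheory Filter ProbabilityTheory Topology

namespace Pool.Agent.Zk97.EA

variable {d : ℕ}

theorem sh_meas (v : Site d) : Measurable (sh v : (Bond d → ℝ) → Bond d → ℝ) :=
  measurable_pi_lambda _ fun e => measurable_pi_apply (te v e)

theorem sh_map (μ : Measure ℝ) [IsProbabilityMeasure μ] (v : Site d) :
    (PJ d μ).map (sh v) = PJ d μ := by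
  unfold PJ
  exact Measure.map_infinitePi_infinitePi_of_inj (P := fun _ : Bond d => μ) (te v).injective

theorem sh_real (μ : Measure ℝ) [IsProbabilityMeasure μ] (v : Site d) {B : Set (Bond d → ℝ)}
    (hB : MeasurableSet B) : (PJ d μ).real (sh v ⁻¹' B) = (PJ d μ).real B := by
  rw [measureReal_def, ← Measure.map_apply (sh_meas v) hB, sh_map, ← measureReal_def]

/-- Markov's inequality for the number of bad sites -/
theorem markov (μ : Measure ℝ) [IsProbabilityMeasure μ] {B : Set (Bond d → ℝ)}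
    (hB : MeasurableSet B) (Λ : Finset (Site d)) (c : ℝ) (hc : 0 < c) :
    (PJ d μ).real {J | c * Λ.card < (({v ∈ (Λ : Set (Site d)) | sh v J ∈ B}).ncard : ℝ)} ≤
      (PJ d μ).real B / c := by
  classical
  rcases Λ.eq_empty_or_nonempty with rfl | hne
  · have : {J : Bond d → ℝ | c * ((∅ : Finset (Site d)).card : ℝ) <
        (({v ∈ ((∅ : Finset (Site d)) : Set (Site d)) | sh v J ∈ B}).ncard : ℝ)} = ∅ := by
      ext J
      simp
    rw [this, measureReal_empty]
    positivity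
  have hcard : (0 : ℝ) < Λ.card := by exact_mod_cast Finset.card_pos.2 hne
  set F : (Bond d → ℝ) → ℝ := fun J => ∑ v ∈ Λ, (sh v ⁻¹' B).indicator (fun _ => (1 : ℝ)) J with hF
  have hFn : ∀ J, (({v ∈ (Λ : Set (Site d)) | sh v J ∈ B}).ncard : ℝ) = F J := by
    intro J
    have h1 : {v ∈ (Λ : Set (Site d)) | sh v J ∈ B} =
        ((Λ.filter fun v => sh v J ∈ B : Finset (Site d)) : Set (Site d)) := by
      ext v
      simp
    rw [h1, Set.ncard_coe_finset, Finset.card_filter]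
    push_cast
    refine Finset.sum_congr rfl fun v _ => ?_
    by_cases hv : sh v J ∈ B
    · rw [if_pos hv, Set.indicator_of_mem (show J ∈ sh v ⁻¹' B from hv)]
    · rw [if_neg hv, Set.indicator_of_notMem (show J ∉ sh v ⁻¹' B from hv)]
  have hint : Integrable F (PJ d μ) := by
    refine integrable_finsetSum _ fun v _ => ?_
    exact (integrable_const (1 : ℝ)).indicator (sh_meas v hB)
  have hI : ∫ J, F J ∂(PJ d μ) = Λ.card * (PJ d μ).real B := by
    rw [hF, integral_finsetSum _ fun v _ =>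
      (integrable_const (1 : ℝ)).indicator (sh_meas v hB)]
    rw [Finset.sum_congr rfl fun v _ => (show ∫ J, (sh v ⁻¹' B).indicator (fun _ => (1 : ℝ)) J
      ∂(PJ d μ) = (PJ d μ).real B from by
        rw [integral_indicator (sh_meas v hB), setIntegral_const, smul_eq_mul, mul_one,
          sh_real μ v hB])]
    rw [Finset.sum_const, nsmul_eq_mul]
  have h0 : 0 ≤ᵐ[PJ d μ] F := by
    refine Eventually.of_forall fun J => ?_
    exact Finset.sum_nonneg fun v _ => Set.indicator_nonneg (fun _ _ => zero_le_one) _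
  have h1 := mul_meas_ge_le_integral_of_nonneg h0 hint (c * Λ.card)
  rw [hI] at h1
  have h2 : (PJ d μ).real {J | c * Λ.card < (({v ∈ (Λ : Set (Site d)) | sh v J ∈ B}).ncard : ℝ)} ≤
      (PJ d μ).real {J | c * Λ.card ≤ F J} := by
    refine measureReal_mono (fun J hJ => ?_) (measure_ne_top _ _)
    have hJ' : c * Λ.card < (({v ∈ (Λ : Set (Site d)) | sh v J ∈ B}).ncard : ℝ) := hJ
    rw [hFn] at hJ'
    exact hJ'.le
  refine h2.trans ?_
  rw [le_div_iff₀ hc]
  have h3 : (c * Λ.card) * (PJ d μ).real {J | c * Λ.card ≤ F J} ≤ Λ.card * (PJ d μ).real B := h1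
  have h4 : Λ.card * ((PJ d μ).real {J | c * Λ.card ≤ F J} * c) ≤
      Λ.card * (PJ d μ).real B := by
    calc _ = (c * Λ.card) * (PJ d μ).real {J | c * Λ.card ≤ F J} := by ring
      _ ≤ _ := h3
  exact le_of_mul_le_mul_left h4 hcard

/-- the box of radius `R` around `v` -/
def Ball (R : ℕ) (v : Site d) : Set (Site d) := {y | ∀ i, |y i - v i| ≤ R}

/-- the bonds `(v, i)`, `v ∈ Λ`, of the forest which are not satisfied in some ground state of the
box of radius `R` around `v` -/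
def BadBonds (R : ℕ) (J : Bond d → ℝ) (Λ : Finset (Site d)) : Set (Bond d) :=
  {e | e.1 ∈ Λ ∧ Strong (ordr fun e => |J e|) e ∧
    ∃ σ, IsGS (Ball R e.1) J σ ∧ J e * (σ e.1 * σ (tip e)) ≤ 0}

/-- the pairs `(x, z)`, `x ∈ Λ`, `z ∈ Z`, with `x` and `x + z` in the same tree, for which the
products of the spins at `x` and `x + z` are different in two ground states of the box of radius
`R` around `x` -/
def BadPairs (R : ℕ) (J : Bond d → ℝ) (Λ Z : Finset (Site d)) :
    Set (Site d × Site d) :=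
  {p | p.1 ∈ Λ ∧ p.2 ∈ Z ∧ Reach {e | Strong (ordr fun e => |J e|) e} p.1 (p.1 + p.2) ∧
    ∃ σ τ, IsGS (Ball R p.1) J σ ∧ IsGS (Ball R p.1) J τ ∧
    σ p.1 * σ (p.1 + p.2) ≠ τ p.1 * τ (p.1 + p.2)}

/-- the exceptional couplings -/
def Exc (R : ℕ) (ε : ℝ) (Λ Z : Finset (Site d)) : Set (Bond d → ℝ) :=
  {J | ε * Λ.card < ((BadBonds R J Λ).ncard : ℝ) ∨
      ε * Λ.card < ((BadPairs R J Λ Z).ncard : ℝ)}

theorem ball_box {R : ℕ} {v : Site d} :
    ∀ w, w ∈ Bx (d := d) R → w ∈ {w | w + v ∈ Ball R v} := by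
  intro w hw
  have h : w + v ∈ Ball R v := by
    intro i
    have := hw i
    simpa using this
  exact h

theorem good_bond {J : Bond d → ℝ} {K : ℝ} {M : ℕ} {Z : Finset (Site d)}
    (hK : ((BE d M).card : ℝ) ≤ K) {e : Bond d}
    (h1 : (fun f => |sh e.1 J f|) ∉ Far Z M) (h2 : Sep (sh e.1 J) K M) {σ : Site d → ℝ}
    (hσ : IsGS (Ball M e.1) J σ) (hs : Strong (ordr fun e => |J e|) e) :
    0 < J e * (σ e.1 * σ (tip e)) := by
  have h3 : te e.1 ((0 : Site d), e.2) = e := by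
    refine Prod.ext ?_ rfl
    simp [te_fst]
  have h4 : Strong (ordr (sh e.1 fun e => |J e|)) ((0 : Site d), e.2) :=
    strong_sh (by rw [h3]; exact hs)
  have h5 : StrongL (ordr fun f => |sh e.1 J f|) M ((0 : Site d), e.2) := by
    by_contra hc
    apply h1
    right
    rw [Set.mem_iUnion]
    exact ⟨e.2, h4, hc⟩
  obtain ⟨h6, h7⟩ := sat_edge ball_box hK h2 (gsc_sh (gsc_of _ J σ hσ) e.1) h5
  have h8 : sh e.1 J ((0 : Site d), e.2) = J e := by
    unfold sh
    rw [h3]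
  have h9 : tip ((0 : Site d), e.2) + e.1 = tip e := by
    rw [← te_tip, h3]
  rw [h8] at h6 h7
  have h10 : J e * (σ (0 + e.1) * σ (tip ((0 : Site d), e.2) + e.1)) = |J e| := h6
  rw [zero_add, h9] at h10
  rw [h10]
  exact h7

theorem good_pair {J : Bond d → ℝ} {K : ℝ} {M : ℕ} {Z : Finset (Site d)}
    (hK : ((BE d M).card : ℝ) ≤ K) {x z : Site d} (hz : z ∈ Z)
    (h1 : (fun f => |sh x J f|) ∉ Far Z M) (h2 : Sep (sh x J) K M) {σ τ : Site d → ℝ}
    (hσ : IsGS (Ball M x) J σ) (hτ : IsGS (Ball M x) J τ)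
    (hr : Reach {e | Strong (ordr fun e => |J e|) e} x (x + z)) :
    σ x * σ (x + z) = τ x * τ (x + z) := by
  have h3 := reach_sh (v := x) hr
  rw [sub_self, add_sub_cancel_left] at h3
  have h5 : Reach {e | StrongL (ordr fun f => |sh x J f|) M e} 0 z := by
    by_contra hc
    apply h1
    left
    rw [Set.mem_iUnion₂]
    exact ⟨z, hz, h3, hc⟩
  have h6 := agree ball_box ball_box hK h2 (gsc_sh (gsc_of _ J σ hσ) x)
    (gsc_sh (gsc_of _ J τ hτ) x) h5
  have h7 : σ (0 + x) * σ (z + x) = τ (0 + x) * τ (z + x) := h6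
  rwa [zero_add, add_comm z x] at h7

theorem core (Z : Finset (Site d)) (ε : ℝ) (hε : 0 < ε) : ∃ (R : ℕ) (K δ : ℝ), 0 < K ∧ 0 < δ ∧
    ∀ (μ : Measure ℝ) [IsProbabilityMeasure μ], (∀ x, μ {x} = 0) →
    (μ.prod μ).real {p : ℝ × ℝ | |p.1| ≤ K * |p.2| ∧ |p.2| ≤ K * |p.1|} ≤ δ →
    ∀ Λ : Finset (Site d), (PJ d μ) (Exc R ε Λ Z) ≤ ENNReal.ofReal ε := by
  classical
  set D : ℝ := (Z.card : ℝ) + d + 1 with hD
  have hD1 : 1 ≤ D := by
    have h1 : (0 : ℝ) ≤ Z.card := Nat.cast_nonneg _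
    have h2 : (0 : ℝ) ≤ d := Nat.cast_nonneg _
    linarith
  set c : ℝ := ε / D with hcdef
  have hc : 0 < c := by positivity
  set η : ℝ := c * ε with hη
  have hη0 : 0 < η := by positivity
  -- the size of the box does not depend on the law
  have hM : ∃ M : ℕ, ∀ (μ : Measure ℝ) [IsProbabilityMeasure μ], (∀ x, μ {x} = 0) →
      (PJ d μ).real {J | (fun e => |J e|) ∈ Far Z M} ≤ η / 2 := by
    by_cases h : ∃ μ₀ : Measure ℝ, IsProbabilityMeasure μ₀ ∧ ∀ x, μ₀ {x} = 0
    · obtain ⟨μ₀, hp, hat⟩ := h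
      have hma : Measurable fun (J : Bond d → ℝ) (e : Bond d) => |J e| := by fun_prop
      have hp2 : IsProbabilityMeasure ((PJ d μ₀).map fun (J : Bond d → ℝ) e => |J e|) :=
        Measure.isProbabilityMeasure_map hma.aemeasurable
      obtain ⟨M, hM⟩ := exists_far ((PJ d μ₀).map fun (J : Bond d → ℝ) e => |J e|) Z (η / 2)
        (by positivity)
      refine ⟨M, fun μ _ hatμ => ?_⟩
      rw [df μ μ₀ hatμ hat _ (meas_far Z M) (far_ord Z M)]
      refine le_trans (le_of_eq ?_) hM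
      rw [measureReal_def, measureReal_def, Measure.map_apply hma (meas_far Z M)]
      rfl
    · refine ⟨0, fun μ hp hat => ?_⟩
      exact absurd ⟨μ, hp, hat⟩ h
  obtain ⟨M, hM⟩ := hM
  set K : ℝ := ((BE d M).card : ℝ) + 1 with hK
  have hK1 : 1 ≤ K := by
    have : (0 : ℝ) ≤ ((BE d M).card : ℝ) := Nat.cast_nonneg _
    linarith
  have hcard : ((BE d M).card : ℝ) ≤ K := by linarith
  refine ⟨M, K, η / (2 * K ^ 2), by linarith, by positivity, ?_⟩
  intro μ _ hat hδ Λ
  obtain ⟨m2, l2⟩ := sep_prob (d := d) μ K _ hδ M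
  set A1 : Set (Bond d → ℝ) := {J | (fun e => |J e|) ∈ Far Z M} with hA1
  set A2 : Set (Bond d → ℝ) := {J | ¬ Sep J K M} with hA2
  have m1 : MeasurableSet A1 :=
    (show Measurable fun (J : Bond d → ℝ) e => |J e| by fun_prop) (meas_far Z M)
  have m2' : MeasurableSet A2 := m2.compl
  set B : Set (Bond d → ℝ) := A1 ∪ A2 with hB
  have hBm : MeasurableSet B := m1.union m2'
  have hPB : (PJ d μ).real B ≤ η := by
    have h3 : (PJ d μ).real A2 ≤ η / 2 := by
      refine l2.trans ?_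
      have h5 : ((BE d M).card : ℝ) ^ 2 ≤ K ^ 2 := by gcongr
      calc ((BE d M).card : ℝ) ^ 2 * (η / (2 * K ^ 2)) ≤ K ^ 2 * (η / (2 * K ^ 2)) :=
            mul_le_mul_of_nonneg_right h5 (by positivity)
        _ = η / 2 := by field_simp
    have h4 := hM μ hat
    calc (PJ d μ).real B ≤ (PJ d μ).real A1 + (PJ d μ).real A2 := measureReal_union_le _ _
      _ ≤ η := by linarith
  -- many bad bonds or pairs give many bad sites
  have hfin : ∀ J, ({v ∈ (Λ : Set (Site d)) | sh v J ∈ B}).Finite :=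
    fun J => Λ.finite_toSet.subset fun v hv => hv.1
  have hsub : Exc M ε Λ Z ⊆
      {J | c * Λ.card < (({v ∈ (Λ : Set (Site d)) | sh v J ∈ B}).ncard : ℝ)} := by
    have key : ∀ (J : Bond d → ℝ) (n : ℝ), n ≤ D * (({v ∈ (Λ : Set (Site d)) | sh v J ∈ B}).ncard : ℝ) →
        ε * Λ.card < n → c * Λ.card < (({v ∈ (Λ : Set (Site d)) | sh v J ∈ B}).ncard : ℝ) := by
      intro J n h1 h2
      have h3 : ε * Λ.card < D * (({v ∈ (Λ : Set (Site d)) | sh v J ∈ B}).ncard : ℝ) :=
        lt_of_lt_of_le h2 h1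
      have h4 : D * (c * Λ.card) < D * (({v ∈ (Λ : Set (Site d)) | sh v J ∈ B}).ncard : ℝ) := by
        refine lt_of_eq_of_lt ?_ h3
        rw [hcdef]
        field_simp
      exact lt_of_mul_lt_mul_left h4 (by linarith)
    rintro J (hJ | hJ)
    · refine key J _ ?_ hJ
      have h1 : BadBonds M J Λ ⊆ {v ∈ (Λ : Set (Site d)) | sh v J ∈ B} ×ˢ (Set.univ : Set (Fin d)) := by
        rintro e ⟨he, hs, σ, hσ, hb⟩
        refine ⟨⟨he, ?_⟩, trivial⟩
        by_contra hc
        have h2 : (fun f => |sh e.1 J f|) ∉ Far Z M := fun h => hc (Or.inl h)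
        have h3 : Sep (sh e.1 J) K M := by
          by_contra h
          exact hc (Or.inr h)
        have := good_bond hcard h2 h3 hσ hs
        linarith
      have h2 := Set.ncard_le_ncard h1 ((hfin J).prod Set.finite_univ)
      rw [Set.ncard_prod, Set.ncard_univ, Nat.card_eq_fintype_card, Fintype.card_fin] at h2
      have h3 : ((BadBonds M J Λ).ncard : ℝ) ≤
          ({v ∈ (Λ : Set (Site d)) | sh v J ∈ B}).ncard * d := by exact_mod_cast h2
      have h4 : (0 : ℝ) ≤ (({v ∈ (Λ : Set (Site d)) | sh v J ∈ B}).ncard : ℝ) := Nat.cast_nonneg _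
      have h5 : (0 : ℝ) ≤ Z.card := Nat.cast_nonneg _
      nlinarith
    · refine key J _ ?_ hJ
      have h1 : BadPairs M J Λ Z ⊆ {v ∈ (Λ : Set (Site d)) | sh v J ∈ B} ×ˢ (Z : Set (Site d)) := by
        rintro ⟨x, z⟩ ⟨hx, hz, hr, σ, τ, hσ, hτ, hb⟩
        refine ⟨⟨hx, ?_⟩, hz⟩
        by_contra hc
        have h2 : (fun f => |sh x J f|) ∉ Far Z M := fun h => hc (Or.inl h)
        have h3 : Sep (sh x J) K M := by
          by_contra h
          exact hc (Or.inr h)
        exact hb (good_pair hcard hz h2 h3 hσ hτ hr)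
      have h2 := Set.ncard_le_ncard h1 ((hfin J).prod Z.finite_toSet)
      rw [Set.ncard_prod, Set.ncard_coe_finset] at h2
      have h3 : ((BadPairs M J Λ Z).ncard : ℝ) ≤
          ({v ∈ (Λ : Set (Site d)) | sh v J ∈ B}).ncard * Z.card := by exact_mod_cast h2
      have h4 : (0 : ℝ) ≤ (({v ∈ (Λ : Set (Site d)) | sh v J ∈ B}).ncard : ℝ) := Nat.cast_nonneg _
      have h5 : (0 : ℝ) ≤ d := Nat.cast_nonneg _
      nlinarith
  refine (measure_mono hsub).trans ?_
  rw [← ENNReal.ofReal_toReal (measure_ne_top (PJ d μ) _)]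
  refine ENNReal.ofReal_le_ofReal ?_
  rw [← measureReal_def]
  refine (markov μ hBm Λ c hc).trans ?_
  rw [div_le_iff₀ hc]
  calc (PJ d μ).real B ≤ η := hPB
    _ = ε * c := by rw [hη]; ring

end Pool.Agent.Zk97.EA
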