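import Pool.Agent.Zk97.EA.Main

/-!
# Edwards-Anderson ground states on `ℤ^d` follow the minimal spanning forest: powers of the couplings

The lemma `pow_law` is the one of `Pool.Agent.Y430.NU.POW`.
-/

set_option autoImplicit false

open MeasureTheory Filter

namespace Pool.Agent.Zk97.EA

variable {d : ℕ}

/-- powers of a coupling -/
noncomputable def pw (t x : ℝ) : ℝ := Real.sign x * |x| ^ t

theorem pw_meas (t : ℝ) : Measurable (pw t) := by
  unfold pw
  refine Measurable.mul ?_ ?_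
  · unfold Real.sign
    exact Measurable.ite (measurableSet_lt measurable_id measurable_const) measurable_const
      (Measurable.ite (measurableSet_lt measurable_const measurable_id) measurable_const
        measurable_const)
  · exact (measurable_id.abs).pow_const t

theorem pw_abs {t : ℝ} (ht : 0 < t) (x : ℝ) : |pw t x| = |x| ^ t := by
  unfold pw
  rw [abs_mul, abs_of_nonneg (Real.rpow_nonneg (abs_nonneg x) t)]
  rcases lt_trichotomy x 0 with h | h | h
  · rw [Real.sign_of_neg h]; simp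
  · rw [h, abs_zero, Real.zero_rpow ht.ne']; simp
  · rw [Real.sign_of_pos h]; simp

theorem pw_inj {t : ℝ} (ht : 0 < t) : Function.Injective (pw t) := by
  intro x y h
  have h1 : |x| ^ t = |y| ^ t := by rw [← pw_abs ht, ← pw_abs ht, h]
  have h2 : |x| = |y| := (Real.rpow_left_inj (abs_nonneg _) (abs_nonneg _) ht.ne').1 h1
  rcases eq_or_ne x 0 with hx | hx
  · rw [hx, abs_zero] at h2
    rw [hx, (abs_eq_zero.1 h2.symm)]
  have hxp : 0 < |x| ^ t := Real.rpow_pos_of_pos (abs_pos.2 hx) t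
  unfold pw at h
  rw [← h1] at h
  have h3 : Real.sign x = Real.sign y := mul_right_cancel₀ hxp.ne' h
  have hy : y ≠ 0 := fun h0 => hx (abs_eq_zero.1 (by rw [h2, h0, abs_zero]))
  rcases lt_or_gt_of_ne hx with h4 | h4 <;> rcases lt_or_gt_of_ne hy with h5 | h5
  · rwa [abs_of_neg h4, abs_of_neg h5, neg_inj] at h2
  · rw [Real.sign_of_neg h4, Real.sign_of_pos h5] at h3; norm_num at h3
  · rw [Real.sign_of_pos h4, Real.sign_of_neg h5] at h3; norm_num at h3
  · rwa [abs_of_pos h4, abs_of_pos h5] at h2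

/-- the set for the law itself -/
def AA (K : ℝ) : Set (ℝ × ℝ) := {p : ℝ × ℝ | |p.1| ≤ K * |p.2| ∧ |p.2| ≤ K * |p.1|}

theorem AA_meas (K : ℝ) : MeasurableSet (AA K) := by
  unfold AA
  refine MeasurableSet.inter ?_ ?_
  · exact measurableSet_le (f := fun p : ℝ × ℝ => |p.1|) (g := fun p : ℝ × ℝ => K * |p.2|)
      (by fun_prop) (by fun_prop)
  · exact measurableSet_le (f := fun p : ℝ × ℝ => |p.2|) (g := fun p : ℝ × ℝ => K * |p.1|)
      (by fun_prop) (by fun_prop)

theorem AA_mono {K L : ℝ} (h : K ≤ L) : AA K ⊆ AA L := by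
  rintro p ⟨h1, h2⟩
  exact ⟨h1.trans (mul_le_mul_of_nonneg_right h (abs_nonneg _)),
    h2.trans (mul_le_mul_of_nonneg_right h (abs_nonneg _))⟩

theorem AA_pw {t K : ℝ} (ht : 0 < t) (hK : 0 < K) (p : ℝ × ℝ) :
    (pw t p.1, pw t p.2) ∈ AA K ↔ p ∈ AA (K ^ t⁻¹) := by
  have key : ∀ a b : ℝ, |a| ^ t ≤ K * |b| ^ t ↔ |a| ≤ K ^ t⁻¹ * |b| := by
    intro a b
    rw [← Real.rpow_le_rpow_iff (z := t) (abs_nonneg a) (by positivity) ht,
      Real.mul_rpow (by positivity) (abs_nonneg _), ← Real.rpow_mul hK.le,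
      inv_mul_cancel₀ ht.ne', Real.rpow_one]
  unfold AA
  simp only [Set.mem_ofPred_eq, pw_abs ht, key]

theorem diag_zero (μ : Measure ℝ) [IsProbabilityMeasure μ] (h0 : ∀ x, μ {x} = 0) :
    (μ.prod μ) (AA 1) = 0 := by
  rw [Measure.measure_prod_null (AA_meas 1)]
  refine Filter.Eventually.of_forall fun x => ?_
  have : Prod.mk x ⁻¹' AA 1 ⊆ {x} ∪ {-x} := by
    rintro y ⟨h1, h2⟩
    simp only [one_mul] at h1 h2
    have h3 : |x| = |y| := le_antisymm h1 h2
    rcases abs_eq_abs.1 h3 with h | h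
    · left; exact h.symm
    · right; rw [Set.mem_singleton_iff, h, neg_neg]
  exact measure_mono_null this (measure_union_null (h0 _) (h0 _))

theorem pow_law (μ : Measure ℝ) [IsProbabilityMeasure μ] (h0 : ∀ x, μ {x} = 0) (K δ : ℝ)
    (hK : 0 < K) (hδ : 0 < δ) : ∃ t₀ : ℝ, 0 < t₀ ∧ ∀ t : ℝ, t₀ ≤ t →
    IsProbabilityMeasure (μ.map (pw t)) ∧ (∀ x, (μ.map (pw t)) {x} = 0) ∧
    ((μ.map (pw t)).prod (μ.map (pw t))).real
      {p : ℝ × ℝ | |p.1| ≤ K * |p.2| ∧ |p.2| ≤ K * |p.1|} ≤ δ := by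
  have hinter : ⋂ n : ℕ, AA ((max K 1) ^ ((n : ℝ) + 1)⁻¹) ⊆ AA 1 := by
    intro p hp
    rw [Set.mem_iInter] at hp
    have hlim : Tendsto (fun n : ℕ => (max K 1) ^ ((n : ℝ) + 1)⁻¹) atTop (nhds 1) := by
      have h1 : Tendsto (fun n : ℕ => ((n : ℝ) + 1)⁻¹) atTop (nhds 0) :=
        (tendsto_natCast_atTop_atTop.atTop_add tendsto_const_nhds).inv_tendsto_atTop
      have h2 := (Real.continuousAt_const_rpow (a := max K 1) (b := 0)
        (by positivity)).tendsto.comp h1
      simpa [Function.comp_def] using h2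
    exact ⟨ge_of_tendsto (hlim.mul_const _) (Filter.Eventually.of_forall fun n => (hp n).1),
      ge_of_tendsto (hlim.mul_const _) (Filter.Eventually.of_forall fun n => (hp n).2)⟩
  have hanti : Antitone fun n : ℕ => AA ((max K 1) ^ ((n : ℝ) + 1)⁻¹) := by
    intro m n hmn
    refine AA_mono (Real.rpow_le_rpow_of_exponent_le (le_max_right _ _) ?_)
    have : (m : ℝ) ≤ n := by exact_mod_cast hmn
    gcongr
  have hT := tendsto_measure_iInter_atTop (μ := μ.prod μ)
    (s := fun n : ℕ => AA ((max K 1) ^ ((n : ℝ) + 1)⁻¹))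
    (fun n => (AA_meas _).nullMeasurableSet) hanti ⟨0, measure_ne_top _ _⟩
  rw [measure_mono_null hinter (diag_zero μ h0)] at hT
  obtain ⟨n, hn⟩ := ((ENNReal.tendsto_nhds_zero.1 hT) (ENNReal.ofReal δ)
    (ENNReal.ofReal_pos.2 hδ)).exists
  refine ⟨(n : ℝ) + 1, by positivity, fun t ht => ?_⟩
  have ht0 : 0 < t := lt_of_lt_of_le (by positivity) ht
  have hm := pw_meas t
  have hprob : IsProbabilityMeasure (μ.map (pw t)) :=
    Measure.isProbabilityMeasure_map hm.aemeasurable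
  refine ⟨hprob, fun x => ?_, ?_⟩
  · rw [Measure.map_apply hm (measurableSet_singleton x)]
    by_cases hx : ∃ y, pw t y = x
    · obtain ⟨y, rfl⟩ := hx
      refine measure_mono_null ?_ (h0 y)
      intro z hz
      exact pw_inj ht0 hz
    · have : pw t ⁻¹' {x} = ∅ := by
        ext z
        simp only [Set.mem_preimage, Set.mem_singleton_iff, Set.mem_empty_iff_false, iff_false]
        exact fun h => hx ⟨z, h⟩
      rw [this, measure_empty]
  · have e1 : (μ.map (pw t)).prod (μ.map (pw t)) = (μ.prod μ).map (Prod.map (pw t) (pw t)) :=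
      Measure.map_prod_map μ μ hm hm
    rw [e1, measureReal_def]
    change (((μ.prod μ).map (Prod.map (pw t) (pw t))) (AA K)).toReal ≤ δ
    rw [Measure.map_apply (hm.prodMap hm) (AA_meas K)]
    refine ENNReal.toReal_le_of_le_ofReal hδ.le (le_trans (measure_mono ?_) hn)
    intro p hp
    have h1 : p ∈ AA (K ^ t⁻¹) := (AA_pw ht0 hK p).1 hp
    refine AA_mono ?_ h1
    refine (Real.rpow_le_rpow hK.le (le_max_left K 1) (by positivity)).trans
      (Real.rpow_le_rpow_of_exponent_le (le_max_right _ _) ?_)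
    gcongr

/-- the order of the absolute values of the powers is the order of the absolute values -/
theorem ordr_pw {t : ℝ} (ht : 0 < t) (J : Bond d → ℝ) :
    ordr (fun e => |pw t (J e)|) = ordr (fun e => |J e|) := by
  funext f e
  unfold ordr
  simp only [pw_abs ht]
  exact propext (Real.rpow_lt_rpow_iff (abs_nonneg _) (abs_nonneg _) ht)

theorem core_pow {R : ℕ} {K δ ε : ℝ} {Z : Finset (Site d)} (hK : 0 < K) (hδ : 0 < δ)
    (h : ∀ (μ : Measure ℝ) [IsProbabilityMeasure μ], (∀ x, μ {x} = 0) →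
      (μ.prod μ).real {p : ℝ × ℝ | |p.1| ≤ K * |p.2| ∧ |p.2| ≤ K * |p.1|} ≤ δ →
      ∀ Λ : Finset (Site d), (PJ d μ) (Exc R ε Λ Z) ≤ ENNReal.ofReal ε)
    (μ : Measure ℝ) [IsProbabilityMeasure μ] (h0 : ∀ x, μ {x} = 0) :
    ∃ t₀ : ℝ, 0 < t₀ ∧ ∀ t : ℝ, t₀ ≤ t → ∀ Λ : Finset (Site d),
      (PJ d μ) {J | (fun e => pw t (J e)) ∈ Exc R ε Λ Z} ≤ ENNReal.ofReal ε := by
  obtain ⟨t₀, ht₀, hp⟩ := pow_law μ h0 K δ hK hδ
  refine ⟨t₀, ht₀, fun t ht Λ => ?_⟩
  obtain ⟨p1, p2, p3⟩ := hp t ht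
  have h1 := h (μ.map (pw t)) p2 p3 Λ
  have h2 := Measure.infinitePi_map_pi (μ := fun _ : Bond d => μ) (f := fun _ => pw t)
    (fun _ => pw_meas t)
  have hm2 : Measurable (fun (J : Bond d → ℝ) (e : Bond d) => pw t (J e)) :=
    measurable_pi_lambda _ fun e => (pw_meas t).comp (measurable_pi_apply e)
  refine le_trans ?_ h1
  unfold PJ
  rw [← h2]
  exact Measure.le_map_apply hm2.aemeasurable _

end Pool.Agent.Zk97.EA
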