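import Pool.Agent.Zk97.EA.Geo

/-!
# Edwards-Anderson ground states on `ℤ^d`: probability
-/

set_option autoImplicit false

open MeasureTheory Filter ProbabilityTheory Topology

namespace Pool.Agent.Zk97.EA

variable {d : ℕ}

/-- the law of iid couplings -/
noncomputable def PJ (d : ℕ) (μ : Measure ℝ) : Measure (Bond d → ℝ) :=
  Measure.infinitePi fun _ : Bond d => μ

instance (μ : Measure ℝ) [IsProbabilityMeasure μ] : IsProbabilityMeasure (PJ d μ) := by
  unfold PJ; infer_instance

/-- the law of two couplings -/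
theorem map_pair (μ : Measure ℝ) [IsProbabilityMeasure μ] {e f : Bond d} (h : e ≠ f) :
    (PJ d μ).map (fun J => (J e, J f)) = μ.prod μ := by
  have h1 := ProbabilityTheory.iIndepFun_infinitePi (P := fun _ : Bond d => μ)
    (X := fun _ : Bond d => (id : ℝ → ℝ)) (fun _ => measurable_id)
  have h2 := h1.indepFun h
  rw [ProbabilityTheory.indepFun_iff_map_prod_eq_prod_map_map
    (by exact (measurable_pi_apply e).aemeasurable)
    (by exact (measurable_pi_apply f).aemeasurable)] at h2
  have h3 : ∀ g : Bond d, (Measure.infinitePi fun _ : Bond d => μ).map (fun J => id (J g)) = μ :=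
    fun g => Measure.infinitePi_map_eval (fun _ : Bond d => μ) g
  rw [h3, h3] at h2
  exact h2

theorem sep_prob (μ : Measure ℝ) [IsProbabilityMeasure μ] (K δ : ℝ)
    (hδ : (μ.prod μ).real {p : ℝ × ℝ | |p.1| ≤ K * |p.2| ∧ |p.2| ≤ K * |p.1|} ≤ δ) (M : ℕ) :
    MeasurableSet {J : Bond d → ℝ | Sep J K M} ∧
      (PJ d μ).real {J : Bond d → ℝ | ¬ Sep J K M} ≤ ((BE d M).card : ℝ) ^ 2 * δ := by
  have hδ0 : 0 ≤ δ := measureReal_nonneg.trans hδ
  have hA : MeasurableSet {p : ℝ × ℝ | |p.1| ≤ K * |p.2| ∧ |p.2| ≤ K * |p.1|} := by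
    refine MeasurableSet.inter ?_ ?_
    · exact measurableSet_le (f := fun p : ℝ × ℝ => |p.1|) (g := fun p : ℝ × ℝ => K * |p.2|)
        (by fun_prop) (by fun_prop)
    · exact measurableSet_le (f := fun p : ℝ × ℝ => |p.2|) (g := fun p : ℝ × ℝ => K * |p.1|)
        (by fun_prop) (by fun_prop)
  constructor
  · have : {J : Bond d → ℝ | Sep J K M} = ⋂ e ∈ BE d M, ⋂ f ∈ BE d M, ⋂ (_ : e ≠ f),
        {J : Bond d → ℝ | K * |J e| < |J f| ∨ K * |J f| < |J e|} := by
      ext J
      simp only [Sep, Set.mem_iInter, Set.mem_ofPred_eq]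
    rw [this]
    refine Finset.measurableSet_biInter _ fun e _ => Finset.measurableSet_biInter _ fun f _ =>
      MeasurableSet.iInter fun _ => ?_
    refine MeasurableSet.union ?_ ?_
    · exact measurableSet_lt (f := fun J : Bond d → ℝ => K * |J e|)
        (g := fun J : Bond d → ℝ => |J f|) (by fun_prop) (by fun_prop)
    · exact measurableSet_lt (f := fun J : Bond d → ℝ => K * |J f|)
        (g := fun J : Bond d → ℝ => |J e|) (by fun_prop) (by fun_prop)
  · have hpair : ∀ e f : Bond d, (PJ d μ).real {J : Bond d → ℝ | e ≠ f ∧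
        (|J e| ≤ K * |J f| ∧ |J f| ≤ K * |J e|)} ≤ δ := by
      intro e f
      by_cases h : e = f
      · have : {J : Bond d → ℝ | e ≠ f ∧ (|J e| ≤ K * |J f| ∧ |J f| ≤ K * |J e|)} = ∅ := by
          ext J
          simp [h]
        rw [this, measureReal_empty]
        exact hδ0
      · have : {J : Bond d → ℝ | e ≠ f ∧ (|J e| ≤ K * |J f| ∧ |J f| ≤ K * |J e|)} =
            (fun J : Bond d → ℝ => (J e, J f)) ⁻¹'
              {p : ℝ × ℝ | |p.1| ≤ K * |p.2| ∧ |p.2| ≤ K * |p.1|} := by
          ext J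
          exact ⟨fun h' => h'.2, fun h' => ⟨h, h'⟩⟩
        rw [this]
        refine le_trans (le_of_eq ?_) hδ
        rw [measureReal_def, measureReal_def, ← map_pair μ h,
          Measure.map_apply (by fun_prop) hA]
    have hsub : {J : Bond d → ℝ | ¬ Sep J K M} ⊆ ⋃ p ∈ BE d M ×ˢ BE d M,
        {J : Bond d → ℝ | p.1 ≠ p.2 ∧ (|J p.1| ≤ K * |J p.2| ∧ |J p.2| ≤ K * |J p.1|)} := by
      intro J hJ
      have hJ' : ¬ Sep J K M := hJ
      unfold Sep at hJ'
      simp only [not_forall, not_or, not_lt] at hJ'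
      obtain ⟨e, he, f, hf, hne, h1, h2⟩ := hJ'
      refine Set.mem_iUnion₂.2 ⟨(e, f), Finset.mem_product.2 ⟨he, hf⟩, hne, h2, h1⟩
    refine (measureReal_mono hsub (measure_ne_top _ _)).trans
      ((measureReal_biUnion_finset_le _ _).trans ?_)
    refine (Finset.sum_le_sum fun p _ => hpair p.1 p.2).trans (le_of_eq ?_)
    rw [Finset.sum_const, Finset.card_product, nsmul_eq_mul]
    push_cast
    ring

/-! ### events depending on the order in a box -/

/-- a relation on the bonds of the box, extended -/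
def ext (M : ℕ) (R : BE d M → BE d M → Prop) (f g : Bond d) : Prop :=
  ∃ (hf : f ∈ BE d M) (hg : g ∈ BE d M), R ⟨f, hf⟩ ⟨g, hg⟩

theorem strongL_ext (U : Bond d → ℝ) (M : ℕ) (R : BE d M → BE d M → Prop)
    (h : ∀ f g, U (f : BE d M) < U (g : BE d M) ↔ R f g) (e : Bond d) :
    StrongL (ordr U) M e ↔ StrongL (ext M R) M e := by
  constructor
  · rintro ⟨A, hA, he, h2⟩
    exact ⟨A, hA, he, fun f hf hfe => ⟨cut_BE hA hf, cut_BE hA he, (h _ _).1 (h2 f hf hfe)⟩⟩
  · rintro ⟨A, hA, he, h2⟩
    refine ⟨A, hA, he, fun f hf hfe => ?_⟩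
    obtain ⟨h3, h4, h5⟩ := h2 f hf hfe
    exact (h _ _).2 h5

theorem meas_local (M : ℕ) (Ψ : (Bond d → Prop) → Prop) :
    MeasurableSet {U : Bond d → ℝ | Ψ fun e => StrongL (ordr U) M e} := by
  classical
  have h1 : {U : Bond d → ℝ | Ψ fun e => StrongL (ordr U) M e} =
      ⋃ R ∈ {R : BE d M → BE d M → Prop | Ψ fun e => StrongL (ext M R) M e},
        {U : Bond d → ℝ | ∀ f g : BE d M, U f < U g ↔ R f g} := by
    ext U
    simp only [Set.mem_iUnion, Set.mem_ofPred_eq]
    constructor
    · intro hU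
      refine ⟨fun f g => U f < U g, ?_, fun f g => Iff.rfl⟩
      have : (fun e => StrongL (ordr U) M e) =
          fun e => StrongL (ext M fun f g => U (f : Bond d) < U (g : Bond d)) M e := by
        funext e
        exact propext (strongL_ext U M _ (fun f g => Iff.rfl) e)
      rwa [this] at hU
    · rintro ⟨R, hR, hU⟩
      have : (fun e => StrongL (ordr U) M e) = fun e => StrongL (ext M R) M e := by
        funext e
        exact propext (strongL_ext U M _ hU e)
      rwa [this]
  rw [h1]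
  refine Set.Finite.measurableSet_biUnion (Set.toFinite _) fun R _ => ?_
  have h2 : {U : Bond d → ℝ | ∀ f g : BE d M, U f < U g ↔ R f g} =
      ⋂ f : BE d M, ⋂ g : BE d M, {U : Bond d → ℝ | U f < U g ↔ R f g} := by
    ext U
    simp only [Set.mem_iInter, Set.mem_ofPred_eq]
  rw [h2]
  refine MeasurableSet.iInter fun f => MeasurableSet.iInter fun g => ?_
  have h3 : MeasurableSet {U : Bond d → ℝ | U f < U g} :=
    measurableSet_lt (measurable_pi_apply _) (measurable_pi_apply _)
  by_cases hR : R f g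
  · simpa [hR] using h3
  · have h4 : {U : Bond d → ℝ | U f < U g ↔ R f g} = {U : Bond d → ℝ | U f < U g}ᶜ := by
      ext U
      simp [hR]
    rw [h4]
    exact h3.compl

/-- joined, but not within the box -/
def FarJoined (M : ℕ) (z : Site d) : Set (Bond d → ℝ) :=
  {U | Reach {e | Strong (ordr U) e} 0 z ∧ ¬ Reach {e | StrongL (ordr U) M e} 0 z}

/-- strongest, but not in the box -/
def FarStrong (M : ℕ) (i : Fin d) : Set (Bond d → ℝ) :=
  {U | Strong (ordr U) ((0 : Site d), i) ∧ ¬ StrongL (ordr U) M ((0 : Site d), i)}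

theorem meas_joined (z : Site d) :
    MeasurableSet {U : Bond d → ℝ | Reach {e | Strong (ordr U) e} 0 z} := by
  have : {U : Bond d → ℝ | Reach {e | Strong (ordr U) e} 0 z} =
      ⋃ N : ℕ, {U : Bond d → ℝ | Reach {e | StrongL (ordr U) N e} 0 z} := by
    ext U
    simp only [Set.mem_iUnion, Set.mem_ofPred_eq]
    exact reach_iff
  rw [this]
  exact MeasurableSet.iUnion fun N => meas_local N fun S => Reach {e | S e} 0 z

theorem meas_strong (i : Fin d) :
    MeasurableSet {U : Bond d → ℝ | Strong (ordr U) ((0 : Site d), i)} := by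
  have : {U : Bond d → ℝ | Strong (ordr U) ((0 : Site d), i)} =
      ⋃ N : ℕ, {U : Bond d → ℝ | StrongL (ordr U) N ((0 : Site d), i)} := by
    ext U
    simp only [Set.mem_iUnion, Set.mem_ofPred_eq]
    exact strong_iff
  rw [this]
  exact MeasurableSet.iUnion fun N => meas_local N fun S => S ((0 : Site d), i)

theorem meas_farJoined (M : ℕ) (z : Site d) : MeasurableSet (FarJoined M z) := by
  have : FarJoined M z = {U : Bond d → ℝ | Reach {e | Strong (ordr U) e} 0 z} ∩
      {U : Bond d → ℝ | ¬ Reach {e | StrongL (ordr U) M e} 0 z} := by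
    ext U
    rfl
  rw [this]
  exact (meas_joined z).inter (meas_local M fun S => ¬ Reach {e | S e} 0 z)

theorem meas_farStrong (M : ℕ) (i : Fin d) : MeasurableSet (FarStrong M i) := by
  have : FarStrong M i = {U : Bond d → ℝ | Strong (ordr U) ((0 : Site d), i)} ∩
      {U : Bond d → ℝ | ¬ StrongL (ordr U) M ((0 : Site d), i)} := by
    ext U
    rfl
  rw [this]
  exact (meas_strong i).inter (meas_local M fun S => ¬ S ((0 : Site d), i))

theorem tendsto_real {Ω : Type*} [MeasurableSpace Ω] (P : Measure Ω) [IsProbabilityMeasure P]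
    (S : ℕ → Set Ω) (hS : ∀ n, MeasurableSet (S n)) (ha : Antitone S) (he : ⋂ n, S n = ∅) :
    Tendsto (fun n => P.real (S n)) atTop (𝓝 0) := by
  have h := tendsto_measure_iInter_atTop (μ := P) (s := S) (fun n => (hS n).nullMeasurableSet) ha
    ⟨0, measure_ne_top _ _⟩
  rw [he, measure_empty] at h
  have h2 := (ENNReal.tendsto_toReal ENNReal.zero_ne_top).comp h
  rw [ENNReal.toReal_zero] at h2
  exact h2

theorem far_tendsto (P : Measure (Bond d → ℝ)) [IsProbabilityMeasure P] (z : Site d) :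
    Tendsto (fun M => P.real (FarJoined M z)) atTop (𝓝 0) := by
  refine tendsto_real P _ (fun M => meas_farJoined M z) ?_ ?_
  · intro M N hMN U hU
    exact ⟨hU.1, fun h => hU.2 (Reach.mono (fun e he => StrongL.mono hMN he) h)⟩
  · rw [Set.eq_empty_iff_forall_notMem]
    intro U hU
    rw [Set.mem_iInter] at hU
    obtain ⟨M, hM⟩ := reach_iff.1 (hU 0).1
    exact (hU M).2 hM

theorem far_tendsto' (P : Measure (Bond d → ℝ)) [IsProbabilityMeasure P] (i : Fin d) :
    Tendsto (fun M => P.real (FarStrong M i)) atTop (𝓝 0) := by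
  refine tendsto_real P _ (fun M => meas_farStrong M i) ?_ ?_
  · intro M N hMN U hU
    exact ⟨hU.1, fun h => hU.2 (StrongL.mono hMN h)⟩
  · rw [Set.eq_empty_iff_forall_notMem]
    intro U hU
    rw [Set.mem_iInter] at hU
    obtain ⟨M, hM⟩ := strong_iff.1 (hU 0).1
    exact (hU M).2 hM

/-- the bad event of the order -/
def Far (Z : Finset (Site d)) (M : ℕ) : Set (Bond d → ℝ) :=
  (⋃ z ∈ Z, FarJoined M z) ∪ ⋃ i : Fin d, FarStrong M i

theorem meas_far (Z : Finset (Site d)) (M : ℕ) : MeasurableSet (Far Z M) :=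
  (Finset.measurableSet_biUnion _ fun z _ => meas_farJoined M z).union
    (MeasurableSet.iUnion fun i => meas_farStrong M i)

theorem exists_far (P : Measure (Bond d → ℝ)) [IsProbabilityMeasure P] (Z : Finset (Site d))
    (η : ℝ) (hη : 0 < η) : ∃ M : ℕ, P.real (Far Z M) ≤ η := by
  classical
  have h1 : Tendsto (fun M => ∑ z ∈ Z, P.real (FarJoined M z) +
      ∑ i : Fin d, P.real (FarStrong M i)) atTop (𝓝 (∑ z ∈ Z, 0 + ∑ i : Fin d, 0)) :=
    (tendsto_finsetSum _ fun z _ => far_tendsto P z).add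
      (tendsto_finsetSum _ fun i _ => far_tendsto' P i)
  simp only [Finset.sum_const_zero, add_zero] at h1
  obtain ⟨M, hM⟩ := (h1.eventually (gt_mem_nhds hη)).exists
  refine ⟨M, le_trans ?_ hM.le⟩
  unfold Far
  refine (measureReal_union_le _ _).trans (add_le_add (measureReal_biUnion_finset_le _ _) ?_)
  have := measureReal_biUnion_finset_le (μ := P) Finset.univ (fun i : Fin d => FarStrong M i)
  simpa using this

end Pool.Agent.Zk97.EA
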